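import Mathlib

set_option autoImplicit false
set_option maxHeartbeats 400000

namespace Pool.Agent.Results.MP_07e2b8_al.PlaneLine

open MvPolynomial CategoryTheory

abbrev S : Type := MvPolynomial (Fin 3) ℚ

noncomputable def m : Ideal S := RingHom.ker (constantCoeff : S →+* ℚ)

instance : m.IsPrime := RingHom.ker_isPrime _

abbrev K : Type := FractionRing S

/-- substitution keeping the variables in `s` and killing the others -/
noncomputable def φ (s : Finset (Fin 3)) : S →+* S :=
  (aeval (fun i => if i ∈ s then (X i : S) else 0)).toRingHom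

lemma φ_X (s : Finset (Fin 3)) (i : Fin 3) : φ s (X i) = if i ∈ s then X i else 0 := by
  simp [φ]

lemma φ_C (s : Finset (Fin 3)) (c : ℚ) : φ s (C c) = C c := by
  simp [φ]

lemma cc_φ (s : Finset (Fin 3)) (f : S) : constantCoeff (φ s f) = constantCoeff f := by
  have : (constantCoeff : S →+* ℚ).comp (φ s) = constantCoeff := by
    apply ringHom_ext
    · intro c; simp [φ_C]
    · intro i; simp only [RingHom.comp_apply, φ_X]; split_ifs <;> simp
  exact RingHom.congr_fun this f

lemma unit_φ (s : Finset (Fin 3)) (y : m.primeCompl) :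
    IsUnit (((algebraMap S K).comp (φ s)) y) := by
  rw [isUnit_iff_ne_zero, RingHom.comp_apply, map_ne_zero_iff _ (IsFractionRing.injective S K)]
  intro h
  apply y.2
  change constantCoeff (y : S) = 0
  rw [← cc_φ s, h, map_zero]

section
variable (T : Type) [CommRing T] [Algebra S T] [IsLocalization.AtPrime T m]

noncomputable def Φ (s : Finset (Fin 3)) : T →+* K := IsLocalization.lift (unit_φ s)

lemma Φ_alg (s : Finset (Fin 3)) (f : S) :
    Φ T s (algebraMap S T f) = algebraMap S K (φ s f) := IsLocalization.lift_eq _ _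

lemma Φ_zero_iff (s : Finset (Fin 3)) (f : S) (y : m.primeCompl) :
    Φ T s (IsLocalization.mk' T f y) = 0 ↔ φ s f = 0 := by
  rw [Φ, IsLocalization.lift_mk'_spec, mul_zero, RingHom.comp_apply,
    map_eq_zero_iff _ (IsFractionRing.injective S K)]

noncomputable def J : Ideal T := RingHom.ker (Φ T {0, 1}) ⊓ RingHom.ker (Φ T {2})

lemma J_le : J T ≤ RingHom.ker (Φ T {1}) := by
  intro t ht
  obtain ⟨f, y, rfl⟩ := IsLocalization.exists_mk'_eq m.primeCompl t
  have h1 := (Φ_zero_iff T _ f y).mp ht.1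
  have : (φ {1}).comp (φ {0, 1}) = φ {1} := by
    apply ringHom_ext
    · intro c; simp [φ_C]
    · intro i; fin_cases i <;> simp [φ_X]
  rw [RingHom.mem_ker, Φ_zero_iff, ← this, RingHom.comp_apply, h1, map_zero]

abbrev R : Type := T ⧸ J T

instance : Nontrivial (R T) := by
  refine Ideal.Quotient.nontrivial_iff.mpr (fun h => ?_)
  have : (1 : T) ∈ J T := h ▸ Submodule.mem_top
  have h2 : Φ T {2} 1 = 0 := this.2
  simp at h2

lemma isLocal : IsLocalRing (R T) :=
  have := IsLocalization.AtPrime.isLocalRing T m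
  IsLocalRing.of_surjective' (Ideal.Quotient.mk (J T))
  Ideal.Quotient.mk_surjective

noncomputable def v (i : Fin 3) : R T := Ideal.Quotient.mk (J T) (algebraMap S T (X i))

noncomputable def Ψ₁ : R T →+* K := Ideal.Quotient.lift (J T) (Φ T {1}) (fun _ h => J_le T h)

noncomputable def Ψ₂ : R T →+* K := Ideal.Quotient.lift (J T) (Φ T {2}) (fun _ h => h.2)

lemma X_ne (i : Fin 3) : algebraMap S K (X i) ≠ 0 := by
  rw [map_ne_zero_iff _ (IsFractionRing.injective S K)]
  exact X_ne_zero i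

lemma mul_v (i : Fin 3) (hi : i ≠ 2) : v T i * v T 2 = 0 := by
  rw [v, v, ← map_mul, Ideal.Quotient.eq_zero_iff_mem]
  constructor
  · simp [RingHom.mem_ker, Φ_alg, φ_X]
  · simp [RingHom.mem_ker, Φ_alg, φ_X, hi]

noncomputable def x : R T := v T 0 - v T 2

lemma x_reg (r : R T) (h : r * x T = 0) : r = 0 := by
  obtain ⟨t, rfl⟩ := Ideal.Quotient.mk_surjective r
  rw [x, v, v, ← map_sub, ← map_mul, Ideal.Quotient.eq_zero_iff_mem] at h
  rw [Ideal.Quotient.eq_zero_iff_mem]
  obtain ⟨h1, h2⟩ := h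
  simp only [SetLike.mem_coe, RingHom.mem_ker, map_mul, map_sub, Φ_alg, φ_X] at h1 h2
  constructor
  · simpa [X_ne] using h1
  · simpa [X_ne] using h2

lemma mem_span_of_cc (f : S) (h : constantCoeff f = 0) :
    f ∈ Ideal.span (Set.range (X : Fin 3 → S)) := by
  have key : ∀ g : S, g - C (constantCoeff g) ∈ Ideal.span (Set.range (X : Fin 3 → S)) := by
    intro g
    induction g using MvPolynomial.induction_on with
    | C a => simp
    | add p q hp hq =>
      have := Ideal.add_mem _ hp hq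
      rw [map_add, map_add]; convert this using 1; ring
    | mul_X p i _ =>
      simp only [map_mul, constantCoeff_X, mul_zero, map_zero, sub_zero]
      exact Ideal.mul_mem_left _ _ (Ideal.subset_span ⟨i, rfl⟩)
  simpa [h] using key f

lemma le_of_v (q q' : Ideal (R T)) (hq' : q' ≠ ⊤) (h : ∀ i, v T i ∈ q) : q' ≤ q := by
  intro r hr
  obtain ⟨t, rfl⟩ := Ideal.Quotient.mk_surjective r
  obtain ⟨f, y, rfl⟩ := IsLocalization.exists_mk'_eq m.primeCompl t
  by_cases hf : f ∈ m
  · have h1 : Ideal.span (Set.range (X : Fin 3 → S)) ≤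
        q.comap ((Ideal.Quotient.mk (J T)).comp (algebraMap S T)) := by
      rw [Ideal.span_le]
      rintro _ ⟨i, rfl⟩
      exact h i
    have h2 : Ideal.Quotient.mk (J T) (algebraMap S T f) ∈ q := h1 (mem_span_of_cc f hf)
    rw [IsLocalization.mk'_eq_mul_mk'_one, map_mul]
    exact Ideal.mul_mem_right _ _ h2
  · exfalso
    apply hq'
    have hu : IsUnit (IsLocalization.mk' T f y) :=
      (IsLocalization.AtPrime.isUnit_mk'_iff T m f y).mpr hf
    exact Ideal.eq_top_of_isUnit_mem _ hr (hu.map _)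

end

lemma pd {A : Type} [CommRing A] (x : A) (hx : ∀ r, r * x = 0 → r = 0) :
    HasProjectiveDimensionLE (ModuleCat.of A (A ⧸ Ideal.span {x})) 1 := by
  let f : A →ₗ[A] A := LinearMap.toSpanSingleton A A x
  let g : A →ₗ[A] (A ⧸ Ideal.span {x}) := (Ideal.span {x}).mkQ
  have hfg : Function.Exact f g := by
    rw [LinearMap.exact_iff, Submodule.ker_mkQ, LinearMap.range_toSpanSingleton]
  have hf : Function.Injective f := by
    rw [injective_iff_map_eq_zero]
    intro r hr
    exact hx r hr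
  have hS := ModuleCat.shortComplex_shortExact
    (ShortComplex.moduleCatMk f g hfg.linearMap_comp_eq_zero) hfg hf (Submodule.mkQ_surjective _)
  have h1 : HasProjectiveDimensionLT (ModuleCat.of A A) 1 :=
    projective_iff_hasProjectiveDimensionLT_one.mp inferInstance
  exact hS.hasProjectiveDimensionLT_X₃ 1 h1
    (hasProjectiveDimensionLT_of_ge (ModuleCat.of A A) 1 2 (by norm_num))

lemma main {A L : Type} [CommRing A] [Field L] (Ψ₁ Ψ₂ : A →+* L) (v : Fin 3 → A)
    (h0 : Ψ₁ (v 0) = 0) (h1 : Ψ₁ (v 1) ≠ 0) (h2 : Ψ₁ (v 2) = 0) (h3 : Ψ₂ (v 2) ≠ 0)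
    (hmul : ∀ i, i ≠ 2 → v i * v 2 = 0)
    (hmax : ∀ q q' : Ideal A, q' ≠ ⊤ → (∀ i, v i ∈ q) → q' ≤ q) :
    Nontrivial (A ⧸ Ideal.span {v 0 - v 2}) ∧ ∃ p ∈ minimalPrimes A,
      ∀ q ∈ (Module.annihilator A (A ⧸ Ideal.span {v 0 - v 2})).minimalPrimes, ¬ p ≤ q := by
  have hx : v 0 - v 2 ∈ RingHom.ker Ψ₁ := by
    simp [RingHom.mem_ker, h0, h2]
  have hle : Ideal.span {v 0 - v 2} ≤ RingHom.ker Ψ₁ := by
    rw [Ideal.span_le]; simpa using hx
  have hprime := RingHom.ker_isPrime Ψ₁
  have hprime2 := RingHom.ker_isPrime Ψ₂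
  constructor
  · exact Ideal.Quotient.nontrivial_iff.mpr (fun h => hprime.ne_top (top_le_iff.mp (h ▸ hle)))
  · obtain ⟨p, hp, hp2⟩ := Ideal.exists_minimalPrimes_le (I := ⊥) (J := RingHom.ker Ψ₂) bot_le
    refine ⟨p, hp, fun q hq hpq => ?_⟩
    rw [Ideal.annihilator_quotient] at hq
    have hc : v 2 ∉ p := fun h => h3 (hp2 h)
    have hab : ∀ i, i ≠ 2 → v i ∈ q := by
      intro i hi
      have : v i * v 2 ∈ p := by rw [hmul i hi]; exact p.zero_mem
      exact hpq ((hp.1.1.mem_or_mem this).resolve_right hc)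
    have hxq : v 0 - v 2 ∈ q := hq.1.2 (Ideal.mem_span_singleton_self _)
    have hall : ∀ i, v i ∈ q := by
      intro i
      by_cases hi : i = 2
      · have := q.sub_mem (hab 0 (by decide)) hxq
        rw [hi]; simpa using this
      · exact hab i hi
    exact h1 (hq.2 ⟨hprime, hle⟩ (hmax q _ hprime.ne_top hall) (hall 1))

lemma result' (T : Type) [CommRing T] [Algebra S T] [IsLocalization.AtPrime T m] :
    ∃ (R : Type) (_ : CommRing R) (_ : IsNoetherianRing R) (_ : IsLocalRing R)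
    (N : Type) (_ : AddCommGroup N) (_ : Module R N),
    Module.Finite R N ∧ Nontrivial N ∧ HasProjectiveDimensionLE (ModuleCat.of R N) 1 ∧
      ∃ p ∈ minimalPrimes R, ∀ q ∈ (Module.annihilator R N).minimalPrimes, ¬ p ≤ q := by
  have hΨ₁ : ∀ i, Ψ₁ T (v T i) = algebraMap S K (φ {1} (X i)) := fun i => Φ_alg T _ _
  have hΨ₂ : ∀ i, Ψ₂ T (v T i) = algebraMap S K (φ {2} (X i)) := fun i => Φ_alg T _ _
  obtain ⟨h1, h2⟩ := main (Ψ₁ T) (Ψ₂ T) (v T) (by simp [hΨ₁, φ_X]) (by simp [hΨ₁, φ_X])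
    (by simp [hΨ₁, φ_X]) (by simp [hΨ₂, φ_X]) (mul_v T) (le_of_v T)
  have : IsNoetherianRing T := IsLocalization.isNoetherianRing m.primeCompl T inferInstance
  exact ⟨R T, inferInstance, inferInstance, isLocal T, R T ⧸ Ideal.span {v T 0 - v T 2},
    inferInstance, inferInstance, inferInstance, h1, pd _ (x_reg T), h2⟩

theorem result : ∃ (R : Type) (_ : CommRing R) (_ : IsNoetherianRing R) (_ : IsLocalRing R)
    (N : Type) (_ : AddCommGroup N) (_ : Module R N),
    Module.Finite R N ∧ Nontrivial N ∧ HasProjectiveDimensionLE (ModuleCat.of R N) 1 ∧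
      ∃ p ∈ minimalPrimes R, ∀ q ∈ (Module.annihilator R N).minimalPrimes, ¬ p ≤ q :=
  result' (Localization.AtPrime m)

end Pool.Agent.Results.MP_07e2b8_al.PlaneLine
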